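import Mathlib
import Pool.Agent.H42.Orb4

open Cardinal Pointwise

/-- ZFC: some permutation group on `ℕ` has exactly `ℵ₁` orbits on the power set of `ℕ`;
so whenever CH fails, some permutation group on a countable set has a number of orbits on the
power set strictly between `ℵ₀` and `2 ^ ℵ₀`. -/
theorem Pool.Agent.Results.MP_7a24ab_lc.Full.result :
    (∃ H : Subgroup (Equiv.Perm ℕ), #(MulAction.orbitRel.Quotient H (Set ℕ)) = ℵ₁) ∧
    ((2 : Cardinal.{0}) ^ ℵ₀ ≠ ℵ₁ → ∃ H : Subgroup (Equiv.Perm ℕ),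
      ℵ₀ < #(MulAction.orbitRel.Quotient H (Set ℕ)) ∧
      #(MulAction.orbitRel.Quotient H (Set ℕ)) < (2 : Cardinal.{0}) ^ ℵ₀) := by
  obtain ⟨H, hH⟩ := Pool.Agent.H42.Orb.orbits
  refine ⟨⟨H, hH⟩, fun h => ⟨H, hH ▸ aleph0_lt_aleph_one, ?_⟩⟩
  rw [hH]
  exact lt_of_le_of_ne (by simpa using aleph_one_le_continuum) h.symm
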